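import Pool.Agent.AT8.StmtsF
import Pool.Agent.Helper21_AT8.RVA
import Pool.Agent.Helper88_AT3.Loc

/-!
# Squad AT8, row FNZ: conjugation and non vanishing of the differences of the coefficients
-/

set_option autoImplicit false
set_option linter.unusedSectionVars false

open scoped BigOperators

noncomputable section

namespace Pool.Agent.PP.T8.H68

open Pool.Agent.Helper51_AWC Pool.Agent.Helper79_WRA Pool.Agent.PP Pool.Agent.PP.KF
open Pool.Agent.PP.K9 Pool.Agent.PP.K9.H97 Pool.Agent.PP.H75 Pool.Agent.PP.T3 Pool.Agent.PP.T2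

attribute [local instance] Ideal.Quotient.field

section basic

variable {G : Type} [Group G]

/-- if the inertial quotient acts freely, all the nontrivial elements of `V` are regular -/
theorem rg_of_fr {F : Type} {V : Subgroup G} {γ : G → F} (hfr : Fr V γ) {v : G} (hv : v ∈ V)
    (h1 : v ≠ 1) : Rg V γ v :=
  ⟨hv, h1, fun t ht => hfr t ht.1 v hv h1 (Subgroup.mem_centralizer_singleton_iff.1 ht.2)⟩

variable [Finite G] (M : Ideal (integralClosure ℤ ℂ)) [M.IsMaximal]

/-- `cl` as a difference of coefficients -/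
theorem cl_eq (V : Subgroup G) (b : G → G → FF M) (d : G → ℕ) (ε : G → ℤ) (lam : V →* ℂ)
    (χ : G → ℂ) : cl M V b d ε lam χ =
      H21.cf (fun v : V => (ε v : ℂ) * vv M b d v χ) lam -
        H21.cf (fun v : V => (ε v : ℂ) * vv M b d v χ) 1 := by
  classical
  have := Fintype.ofFinite V
  unfold cl
  rw [finsum_eq_sum_of_fintype, H21.cf_eq, H21.cf_eq, ← mul_sub, ← Finset.sum_sub_distrib]
  congr 1
  refine Finset.sum_congr rfl fun v _ => ?_
  rw [MonoidHom.one_apply]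
  ring

end basic

section main

variable {ℓ : ℕ} [Fact ℓ.Prime] {M : Ideal (integralClosure ℤ ℂ)} [M.IsMaximal]
  {G : Type} [Group G] [Finite G] {e : G → FF M} {V : Subgroup G} {γ : G → FF M}
  {b : G → G → FF M} {d : G → ℕ} {c : ℕ} {ε : G → ℤ}

theorem conj_part (dpw : DpwStmt) (hM : (ℓ : integralClosure ℤ ℂ) ∈ M) (hl2 : ℓ ≠ 2)
    (hd : Dat M ℓ e V γ b d c ε) (hfr : Fr V γ) (t : G) (ht : t ∈ Tg V γ) (lam mu : V →* ℂ)
    (htc : Tc V t lam mu) (χ : G → ℂ) (hχ : χ ∈ Irr G) :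
    cl M V b d ε mu χ = cl M V b d ε lam χ := by
  have hn : t ∈ Subgroup.normalizer (V : Set G) := ht.1
  have hmem : ∀ v : V, t * (v : G) * t⁻¹ ∈ V := fun v =>
    (Subgroup.mem_normalizer_iff.1 hn v).1 v.2
  unfold cl
  congr 1
  refine finsum_eq_of_bijective (fun v : V => (⟨t * (v : G) * t⁻¹, hmem v⟩ : V)) ?_ ?_
  · refine Finite.injective_iff_bijective.1 ?_
    intro v w h
    have h1 := congrArg Subtype.val h
    change t * (v : G) * t⁻¹ = t * (w : G) * t⁻¹ at h1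
    exact Subtype.ext (mul_left_cancel (mul_right_cancel h1))
  · intro v
    have h1 : mu v⁻¹ = lam (⟨t * (v : G) * t⁻¹, hmem v⟩ : V)⁻¹ := by
      apply htc
      change (t * (v : G) * t⁻¹)⁻¹ = t * ((v⁻¹ : V) : G) * t⁻¹
      push_cast
      group
    rw [h1]
    by_cases hv : (v : G) = 1
    · have h2 : (⟨t * (v : G) * t⁻¹, hmem v⟩ : V) = 1 := by
        apply Subtype.ext
        change t * (v : G) * t⁻¹ = 1
        rw [hv]
        group
      rw [h2, inv_one, map_one, sub_self, mul_zero, mul_zero]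
    · obtain ⟨-, h3, h4⟩ := (dpw ℓ M hM hl2 G e V γ b d c ε hd).1 t ht v (rg_of_fr hfr v.2 hv)
      change (ε v : ℂ) * vv M b d v χ * _ = (ε (t * v * t⁻¹) : ℂ) * vv M b d (t * v * t⁻¹) χ * _
      rw [h3, h4 χ hχ]

theorem vv_zero (smg : SmgStmt) (hM : (ℓ : integralClosure ℤ ℂ) ∈ M)
    (hd : Dat M ℓ e V γ b d c ε) (hfr : Fr V γ) {v : G} (hv : v ∈ V) (h1 : v ≠ 1) (χ : G → ℂ)
    (hχ : χ ∈ Irr G) (hχe : χ ∉ IrrE M e) : vv M b d v χ = 0 := by
  have hr := rg_of_fr hfr hv h1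
  have hlc := hd.lc v hr
  have hEl : El ℓ v := H88.el_of_mem hd.ld.tp.pg hv
  have h := (smg ℓ M hM G v 1 h1 hEl (Subgroup.one_mem _)
    (by unfold Reg; rw [orderOf_one]; exact Nat.coprime_one_left ℓ)
    (fun t : Cu v => b v t) hlc.blk.blk.1 e hd.ld.blk.1).1 hlc.und χ hχ hχe
  rw [mul_one] at h
  unfold vv gv
  rw [h, zero_div]

theorem vv_ne (dcg : DcgStmt) (inx : K9.InxStmt) (hM : (ℓ : integralClosure ℤ ℂ) ∈ M)
    (hd : Dat M ℓ e V γ b d c ε) {v : G} (hr : Rg V γ v) (χ : G → ℂ)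
    (hχe : χ ∈ IrrE M e) : vv M b d v χ ≠ 0 := by
  intro h0
  have hℓ : ℓ.Prime := Fact.out
  have h := (dcg ℓ M hM G e V γ b d c ε hd v hr χ hχe).2
  rw [h0, zero_mul, rr_zero, ← (rr_int (M := M) (ε v * ix V γ : ℤ)).2] at h
  have h2 := (dvd_of_rr (M := M) hℓ hM).1 h.symm
  have h3 : (ℓ : ℤ) ∣ (ix V γ : ℤ) := by
    rcases hd.sg v hr with h4 | h4
    · rwa [h4, one_mul] at h2
    · rwa [h4, neg_one_mul, dvd_neg] at h2
  have h5 : ℓ ∣ ix V γ := by exact_mod_cast h3
  exact inx ℓ M hM G e hd.ld.blk V hd.ld.tp hd.ld.ab γ hd.ld.gam.supp hd.ld.gam.blk hd.ld.und h5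

end main

/-- row FNZ -/
theorem fnz (dpw : DpwStmt) (dcg : DcgStmt) (smg : SmgStmt) (inx : K9.InxStmt) : FnzStmt := by
  intro ℓ _ M _ hM hl2 G _ _ e V γ b d c ε hd hfr
  refine ⟨conj_part dpw hM hl2 hd hfr, ?_, ?_⟩
  · intro hV χ hχ
    classical
    have := Fintype.ofFinite V
    have : Finite (V →* ℂ) := H21.finite_hom
    have := Fintype.ofFinite (V →* ℂ)
    have hab : ∀ x y : V, x * y = y * x := fun x y => Subtype.ext (hd.ld.ab x x.2 y y.2)
    obtain ⟨v, hv⟩ := (Subgroup.ne_bot_iff_exists_ne_one).1 hV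
    have hv1 : (v : G) ≠ 1 := fun h => hv (Subtype.ext h)
    have hr : Rg V γ v := rg_of_fr hfr v.2 hv1
    by_contra hcon
    have h0 : ∀ lam : V →* ℂ, cl M V b d ε lam χ = 0 := by
      intro lam
      by_cases hl : ∃ w, lam w ≠ 1
      · by_contra h
        exact hcon ⟨lam, hl, h⟩
      · have hl1 : ∀ w, lam w = 1 := fun w => by
          by_contra h
          exact hl ⟨w, h⟩
        have : lam = 1 := MonoidHom.ext hl1
        rw [cl_eq, this, sub_self]
    have h1 := H21.inversion hab (fun v : V => (ε v : ℂ) * vv M b d v χ) v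
    have h2 : ∀ lam : V →* ℂ, H21.cf (fun v : V => (ε v : ℂ) * vv M b d v χ) lam =
        H21.cf (fun v : V => (ε v : ℂ) * vv M b d v χ) 1 := fun lam => by
      have := h0 lam
      rw [cl_eq] at this
      exact sub_eq_zero.1 this
    simp only [h2] at h1
    rw [← Finset.mul_sum, H21.sum_lam hab, if_neg hv, mul_zero] at h1
    have h3 : (ε v : ℂ) ≠ 0 := by
      rcases hd.sg v hr with h4 | h4 <;> rw [h4] <;> norm_num
    exact mul_ne_zero h3 (vv_ne dcg inx hM hd hr χ hχ) h1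
  · intro lam χ hχ hχe
    unfold cl
    have : ∀ v : V, (ε v : ℂ) * vv M b d v χ * (lam v⁻¹ - 1) = 0 := by
      intro v
      by_cases hv : (v : G) = 1
      · have h2 : v = 1 := Subtype.ext hv
        rw [h2, inv_one, map_one, sub_self, mul_zero]
      · rw [vv_zero smg hM hd hfr v.2 hv χ hχ hχe, mul_zero, zero_mul]
    simp only [this]
    rw [finsum_zero, mul_zero]

end Pool.Agent.PP.T8.H68
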